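import Pool.Agent.W5h48.TTO.C

set_option autoImplicit false

/-! Existence of a complex symmetric matrix without orthogonal eigenvectors which does not satisfy
the rank two criterion. -/

namespace Pool.Agent.W5h48.TTO

open Matrix Module Filter Topology
open scoped ComplexOrder

/-- `M` has a pair of orthogonal eigenvectors -/
def HasOrth {n : ℕ} (M : Matrix (Fin n) (Fin n) ℂ) : Prop :=
  ∃ x y : Fin n → ℂ, ∃ a b : ℂ, x ≠ 0 ∧ y ≠ 0 ∧
    M *ᵥ x = a • x ∧ M *ᵥ y = b • y ∧ star x ⬝ᵥ y = 0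

/-- the symmetric matrix with the entries `√(w p)` -/
noncomputable def S {n : ℕ} (w : Idx n → ℝ) : Matrix (Fin n) (Fin n) ℂ :=
  Matrix.of fun i j => ((Real.sqrt (w ⟨(min i j, max i j), min_le_max⟩) : ℝ) : ℂ)

/-- the diagonal -/
def dd (n : ℕ) : Fin n → ℂ := fun i => ((i : ℕ) : ℂ)

/-- the matrix `D + i S` -/
noncomputable def Mw {n : ℕ} (w : Idx n → ℝ) : Matrix (Fin n) (Fin n) ℂ :=
  Matrix.diagonal (dd n) + Complex.I • S w

lemma dd_inj (n : ℕ) : Function.Injective (dd n) := by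
  intro i j h
  simp only [dd, Nat.cast_inj] at h
  exact Fin.ext h

lemma S_symm {n : ℕ} (w : Idx n → ℝ) : (S w)ᵀ = S w := by
  ext i j
  simp only [S, Matrix.transpose_apply, Matrix.of_apply, min_comm, max_comm]

lemma S_herm {n : ℕ} (w : Idx n → ℝ) : (S w)ᴴ = S w := by
  ext i j
  simp only [S, Matrix.conjTranspose_apply, Matrix.of_apply, min_comm, max_comm]
  exact Complex.conj_ofReal _

lemma Mw_symm {n : ℕ} (w : Idx n → ℝ) : (Mw w)ᵀ = Mw w := by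
  unfold Mw
  rw [Matrix.transpose_add, Matrix.diagonal_transpose, Matrix.transpose_smul, S_symm]

lemma diag_herm (n : ℕ) : (Matrix.diagonal (dd n))ᴴ = Matrix.diagonal (dd n) := by
  rw [Matrix.diagonal_conjTranspose]
  congr 1
  ext i
  simp [dd]

lemma Mw_re {n : ℕ} (w : Idx n → ℝ) :
    (1 / 2 : ℂ) • (Mw w + (Mw w)ᴴ) = Matrix.diagonal (dd n) := by
  unfold Mw
  rw [Matrix.conjTranspose_add, diag_herm, Matrix.conjTranspose_smul, S_herm]
  ext i j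
  simp only [Matrix.add_apply, Matrix.smul_apply, smul_eq_mul, Complex.star_def, Complex.conj_I]
  ring

lemma Mw_im {n : ℕ} (w : Idx n → ℝ) :
    (1 / (2 * Complex.I) : ℂ) • (Mw w - (Mw w)ᴴ) = S w := by
  unfold Mw
  rw [Matrix.conjTranspose_add, diag_herm, Matrix.conjTranspose_smul, S_herm]
  ext i j
  simp only [Matrix.add_apply, Matrix.smul_apply, smul_eq_mul, Complex.star_def, Complex.conj_I,
    Matrix.sub_apply]
  have := Complex.I_ne_zero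
  field_simp
  ring

/-! ### The all-ones imaginary part -/

lemma S_one_mulVec {n : ℕ} (z : Fin n → ℂ) (i : Fin n) :
    (S (fun _ : Idx n => (1 : ℝ)) *ᵥ z) i = ∑ j, z j := by
  simp [S, Matrix.mulVec, dotProduct]

lemma sum_ne_zero {n : ℕ} {z : Fin n → ℂ} {c : ℂ} (hz : z ≠ 0)
    (h : Mw (fun _ : Idx n => (1 : ℝ)) *ᵥ z = c • z) : ∑ j, z j ≠ 0 := by
  intro hs
  have h1 : ∀ i, dd n i * z i = c * z i := by
    intro i
    have := congrFun h i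
    unfold Mw at this
    rw [Matrix.add_mulVec, Pi.add_apply, Matrix.smul_mulVec, Pi.smul_apply, S_one_mulVec, hs,
      smul_zero, add_zero, Matrix.mulVec_diagonal] at this
    exact this
  obtain ⟨j, hj⟩ : ∃ j, z j ≠ 0 := Function.ne_iff.1 hz
  have hc : dd n j = c := mul_right_cancel₀ hj (h1 j)
  have h2 : ∀ i, i ≠ j → z i = 0 := by
    intro i hi
    by_contra hzi
    have h3 := mul_right_cancel₀ hzi (h1 i)
    exact hi (dd_inj n (h3.trans hc.symm))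
  rw [Finset.sum_eq_single j (fun i _ hi => h2 i hi) (fun h => absurd (Finset.mem_univ _) h)] at hs
  exact hj hs

lemma not_hasOrth_one (n : ℕ) : ¬ HasOrth (Mw (fun _ : Idx n => (1 : ℝ))) := by
  rintro ⟨x, y, a, b, hx, hy, hax, hby, hxy⟩
  have hsx := sum_ne_zero hx hax
  have hsy := sum_ne_zero hy hby
  set M := Mw (fun _ : Idx n => (1 : ℝ)) with hM
  -- `⟨x, (M - Mᴴ) y⟩ = 0`
  have h1 : star x ⬝ᵥ (M *ᵥ y) = 0 := by rw [hby, dotProduct_smul, hxy, smul_zero]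
  have h2 : star x ⬝ᵥ (Mᴴ *ᵥ y) = 0 := by
    rw [Matrix.dotProduct_mulVec, ← Matrix.star_mulVec, hax, star_smul, smul_dotProduct, hxy,
      smul_zero]
  have h3 : star x ⬝ᵥ (((1 / (2 * Complex.I) : ℂ) • (M - Mᴴ)) *ᵥ y) = 0 := by
    rw [Matrix.smul_mulVec, dotProduct_smul, Matrix.sub_mulVec, dotProduct_sub, h1, h2, sub_zero,
      smul_zero]
  rw [hM, Mw_im] at h3
  have h4 : star x ⬝ᵥ (S (fun _ : Idx n => (1 : ℝ)) *ᵥ y) = star (∑ j, x j) * ∑ j, y j := by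
    simp only [dotProduct, S_one_mulVec, Pi.star_apply]
    rw [← Finset.sum_mul, star_sum]
  rw [h4] at h3
  rcases mul_eq_zero.1 h3 with h | h
  · exact hsx (star_eq_zero.1 h)
  · exact hsy h

/-! ### Stability of the absence of orthogonal eigenvectors -/

lemma continuous_Mw {n : ℕ} : Continuous (Mw (n := n)) := by
  have h : Continuous fun w : Idx n → ℝ => S w := by
    refine continuous_pi fun i => continuous_pi fun j => ?_
    exact Complex.continuous_ofReal.comp (Real.continuous_sqrt.comp (continuous_apply _))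
  exact continuous_const.add (h.const_smul Complex.I)

/-- the closed set of eigenpairs -/
def Z (n : ℕ) : Set ((Idx n → ℝ) ×
    (Metric.sphere (0 : Fin n → ℂ) 1 × Metric.sphere (0 : Fin n → ℂ) 1)) :=
  {p | (star p.2.1.1 ⬝ᵥ p.2.1.1) • (Mw p.1 *ᵥ p.2.1.1)
        = (star p.2.1.1 ⬝ᵥ (Mw p.1 *ᵥ p.2.1.1)) • p.2.1.1 ∧
      (star p.2.2.1 ⬝ᵥ p.2.2.1) • (Mw p.1 *ᵥ p.2.2.1)
        = (star p.2.2.1 ⬝ᵥ (Mw p.1 *ᵥ p.2.2.1)) • p.2.2.1 ∧
      star p.2.1.1 ⬝ᵥ p.2.2.1 = 0}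

lemma isClosed_Z (n : ℕ) : IsClosed (Z n) := by
  have hM : Continuous fun p : (Idx n → ℝ) ×
    (Metric.sphere (0 : Fin n → ℂ) 1 × Metric.sphere (0 : Fin n → ℂ) 1) => Mw p.1 :=
    continuous_Mw.comp continuous_fst
  unfold Z
  simp only [Set.ofPred_and]
  refine IsClosed.inter ?_ (IsClosed.inter ?_ ?_)
  · refine isClosed_eq ?_ ?_ <;> fun_prop
  · refine isClosed_eq ?_ ?_ <;> fun_prop
  · refine isClosed_eq ?_ ?_ <;> fun_prop

lemma eig_aux {n : ℕ} {M : Matrix (Fin n) (Fin n) ℂ} {x : Fin n → ℂ} {a : ℂ}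
    (h : M *ᵥ x = a • x) : (star x ⬝ᵥ x) • (M *ᵥ x) = (star x ⬝ᵥ (M *ᵥ x)) • x := by
  rw [h, dotProduct_smul, smul_smul, smul_eq_mul, mul_comm a]

lemma normalize {n : ℕ} {M : Matrix (Fin n) (Fin n) ℂ} {x : Fin n → ℂ} {a : ℂ} (hx : x ≠ 0)
    (h : M *ᵥ x = a • x) : ∃ x' : Metric.sphere (0 : Fin n → ℂ) 1, ∃ c : ℂ, x'.1 = c • x ∧
      (star x'.1 ⬝ᵥ x'.1) • (M *ᵥ x'.1) = (star x'.1 ⬝ᵥ (M *ᵥ x'.1)) • x'.1 := by
  have hn : ‖x‖ ≠ 0 := norm_ne_zero_iff.2 hx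
  have h1 : M *ᵥ (((‖x‖⁻¹ : ℝ) : ℂ) • x) = a • (((‖x‖⁻¹ : ℝ) : ℂ) • x) := by
    rw [Matrix.mulVec_smul, h, smul_comm]
  refine ⟨⟨((‖x‖⁻¹ : ℝ) : ℂ) • x, ?_⟩, ((‖x‖⁻¹ : ℝ) : ℂ), rfl, ?_⟩
  · rw [mem_sphere_zero_iff_norm, norm_smul, Complex.norm_real, norm_inv, norm_norm,
      inv_mul_cancel₀ hn]
  · exact eig_aux h1

lemma hasOrth_mem {n : ℕ} {w : Idx n → ℝ} (h : HasOrth (Mw w)) : w ∈ Prod.fst '' Z n := by
  obtain ⟨x, y, a, b, hx, hy, hax, hby, hxy⟩ := h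
  obtain ⟨x', c, hx', hx2⟩ := normalize hx hax
  obtain ⟨y', c', hy', hy2⟩ := normalize hy hby
  refine ⟨(w, x', y'), ⟨hx2, hy2, ?_⟩, rfl⟩
  simp only
  rw [hx', hy', star_smul, smul_dotProduct, dotProduct_smul, hxy, smul_zero, smul_zero]

lemma mem_hasOrth {n : ℕ} {w : Idx n → ℝ} (h : w ∈ Prod.fst '' Z n) : HasOrth (Mw w) := by
  obtain ⟨⟨w', x, y⟩, ⟨h1, h2, h3⟩, rfl⟩ := h
  have key : ∀ x : Metric.sphere (0 : Fin n → ℂ) 1, x.1 ≠ 0 ∧ star x.1 ⬝ᵥ x.1 ≠ 0 := by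
    intro x
    have hx : x.1 ≠ 0 := by
      intro h0
      have := mem_sphere_zero_iff_norm.1 x.2
      rw [h0, norm_zero] at this
      exact zero_ne_one this
    exact ⟨hx, fun h => hx (dotProduct_star_self_eq_zero.1 h)⟩
  simp only at h1 h2 h3 ⊢
  refine ⟨x.1, y.1, (star x.1 ⬝ᵥ x.1)⁻¹ * (star x.1 ⬝ᵥ (Mw w' *ᵥ x.1)),
    (star y.1 ⬝ᵥ y.1)⁻¹ * (star y.1 ⬝ᵥ (Mw w' *ᵥ y.1)), (key x).1, (key y).1, ?_, ?_, h3⟩
  · rw [← smul_smul, ← h1, smul_smul, inv_mul_cancel₀ (key x).2, one_smul]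
  · rw [← smul_smul, ← h2, smul_smul, inv_mul_cancel₀ (key y).2, one_smul]

lemma eventually_not_hasOrth (n : ℕ) :
    ∀ᶠ w : Idx n → ℝ in 𝓝 (fun _ => (1 : ℝ)), ¬ HasOrth (Mw w) := by
  have hcl : IsClosed (Prod.fst '' Z n) := isClosedMap_fst_of_compactSpace _ (isClosed_Z n)
  have hmem : (fun _ : Idx n => (1 : ℝ)) ∈ (Prod.fst '' Z n)ᶜ := fun h =>
    not_hasOrth_one n (mem_hasOrth h)
  filter_upwards [hcl.isOpen_compl.mem_nhds hmem] with w hw h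
  exact hw (hasOrth_mem h)

/-- **Main result.** There is a complex symmetric `12 × 12` matrix without a pair of orthogonal
eigenvectors which does not satisfy the rank two criterion. -/
theorem main : ∃ M : Matrix (Fin 12) (Fin 12) ℂ, Mᵀ = M ∧ ¬ HasOrth M ∧
    ¬ ∃ T : Matrix (Fin 12) (Fin 12) ℂ, ∃ k u v : Fin 12 → ℂ,
        1 - T * Tᴴ = Matrix.vecMulVec k (star k) ∧
        (∀ μ : ℂ, ∀ x : Fin 12 → ℂ, x ≠ 0 → T *ᵥ x = μ • x → ‖μ‖ < 1) ∧
        M - T * M * Tᴴ = Matrix.vecMulVec u (star k) + Matrix.vecMulVec k (star v) := by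
  have hpos : ∀ᶠ w : Idx 12 → ℝ in 𝓝 (fun _ => (1 : ℝ)), ∀ p, 0 < w p := by
    rw [Filter.eventually_all]
    intro p
    have hc : Continuous fun w : Idx 12 → ℝ => w p := continuous_apply p
    exact hc.continuousAt.eventually_const_lt one_pos
  have hev := hpos.and (eventually_not_hasOrth 12)
  obtain ⟨w, hw2, hw0, hw1⟩ := (dense_compl (Matrix.vandermonde (dd 12))⁻¹).inter_nhds_nonempty
    hev
  refine ⟨Mw w, Mw_symm w, hw1, ?_⟩
  rintro ⟨T, k, u, v, hk, hT, hM⟩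
  obtain ⟨x, hx, K, hK, h1, h2⟩ := model hk hT hM
  rw [Mw_re] at h1
  rw [Mw_im] at h2
  apply hw2
  refine ⟨x, hx, ?_⟩
  funext p
  rw [inv_eq hK (dd_inj 12) h1 h2 p]
  have hmin : min p.1.1 p.1.2 = p.1.1 := min_eq_left p.2
  have hmax : max p.1.1 p.1.2 = p.1.2 := max_eq_right p.2
  have hmin' : min p.1.2 p.1.1 = p.1.1 := min_eq_right p.2
  have hmax' : max p.1.2 p.1.1 = p.1.2 := max_eq_left p.2
  have hS1 : S w p.1.1 p.1.2 = ((Real.sqrt (w p) : ℝ) : ℂ) := by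
    simp only [S, Matrix.of_apply]
    congr 3
    exact Subtype.ext (Prod.ext hmin hmax)
  have hS2 : S w p.1.2 p.1.1 = ((Real.sqrt (w p) : ℝ) : ℂ) := by
    simp only [S, Matrix.of_apply]
    congr 3
    exact Subtype.ext (Prod.ext hmin' hmax')
  rw [hS1, hS2, ← Complex.ofReal_mul, Complex.ofReal_re, Real.mul_self_sqrt (hw0 p).le]

end Pool.Agent.W5h48.TTO
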