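import Mathlib

set_option autoImplicit false

/-! Entrywise smooth matrix-valued maps; the companion type matrix and the Stein equation. -/

namespace Pool.Agent.W5h48.TTO

open Matrix Module

section smooth

variable {E : Type*} [NormedAddCommGroup E] [NormedSpace ℝ E]
variable {ι κ μ : Type*} [Fintype ι] [Fintype κ] [Fintype μ] [DecidableEq ι] [DecidableEq κ]
  [DecidableEq μ]

/-- entrywise `C¹` at a point -/
def Sm (M : E → Matrix ι κ ℂ) (x : E) : Prop := ∀ i j, ContDiffAt ℝ 1 (fun y => M y i j) x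

omit [Fintype ι] [Fintype κ] [DecidableEq ι] [DecidableEq κ] in
lemma Sm.const (A : Matrix ι κ ℂ) (x : E) : Sm (fun _ : E => A) x := fun _ _ => contDiffAt_const

omit [Fintype ι] [Fintype κ] [DecidableEq ι] [DecidableEq κ] in
lemma Sm.add {M N : E → Matrix ι κ ℂ} {x : E} (hM : Sm M x) (hN : Sm N x) :
    Sm (fun y => M y + N y) x := fun i j => (hM i j).add (hN i j)

omit [Fintype ι] [Fintype κ] [DecidableEq ι] [DecidableEq κ] in
lemma Sm.sub {M N : E → Matrix ι κ ℂ} {x : E} (hM : Sm M x) (hN : Sm N x) :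
    Sm (fun y => M y - N y) x := fun i j => (hM i j).sub (hN i j)

omit [Fintype ι] [Fintype κ] [DecidableEq ι] [DecidableEq κ] in
lemma Sm.smul (c : ℂ) {M : E → Matrix ι κ ℂ} {x : E} (hM : Sm M x) :
    Sm (fun y => c • M y) x := fun i j => contDiffAt_const.mul (hM i j)

omit [Fintype ι] [DecidableEq ι] [DecidableEq κ] [Fintype μ] [DecidableEq μ] in
lemma Sm.mul {M : E → Matrix ι κ ℂ} {N : E → Matrix κ μ ℂ} {x : E} (hM : Sm M x)
    (hN : Sm N x) : Sm (fun y => M y * N y) x := by
  intro i j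
  simp only [Matrix.mul_apply]
  exact ContDiffAt.sum fun k _ => (hM i k).mul (hN k j)

lemma contDiffAt_star {g : E → ℂ} {x : E} (h : ContDiffAt ℝ 1 g x) :
    ContDiffAt ℝ 1 (fun y => star (g y)) x :=
  Complex.conjCLE.contDiff.contDiffAt.comp x h

omit [Fintype ι] [Fintype κ] [DecidableEq ι] [DecidableEq κ] in
lemma Sm.conjTranspose {M : E → Matrix ι κ ℂ} {x : E} (hM : Sm M x) :
    Sm (fun y => (M y)ᴴ) x := fun i j => contDiffAt_star (hM j i)

lemma Sm.pow {M : E → Matrix ι ι ℂ} {x : E} (hM : Sm M x) (k : ℕ) :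
    Sm (fun y => (M y) ^ k) x := by
  induction k with
  | zero => simpa using Sm.const 1 x
  | succ k ih =>
    simp only [pow_succ]
    exact ih.mul hM

omit [Fintype ι] [Fintype κ] [DecidableEq ι] [DecidableEq κ] in
lemma Sm.sum {α : Type*} (s : Finset α) {M : α → E → Matrix ι κ ℂ} {x : E}
    (h : ∀ a ∈ s, Sm (M a) x) : Sm (fun y => ∑ a ∈ s, M a y) x := by
  intro i j
  simp only [Matrix.sum_apply]
  exact ContDiffAt.sum fun a ha => h a ha i j

lemma Sm.det {M : E → Matrix ι ι ℂ} {x : E} (hM : Sm M x) :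
    ContDiffAt ℝ 1 (fun y => (M y).det) x := by
  simp only [Matrix.det_apply']
  refine ContDiffAt.sum fun σ _ => ?_
  exact contDiffAt_const.mul (contDiffAt_prod fun i _ => hM _ _)

lemma Sm.inv {M : E → Matrix ι ι ℂ} {x : E} (hM : Sm M x) (hx : (M x).det ≠ 0) :
    Sm (fun y => (M y)⁻¹) x := by
  intro i j
  simp only [Matrix.inv_def, Matrix.smul_apply, Ring.inverse_eq_inv', smul_eq_mul,
    Matrix.adjugate_apply]
  refine (hM.det.inv hx).mul ?_
  apply Sm.det (M := fun y => (M y).updateRow j (Pi.single i 1))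
  intro a b
  by_cases h : a = j
  · subst h
    simp only [Matrix.updateRow_self]
    exact contDiffAt_const
  · simp only [Matrix.updateRow_ne h]
    exact hM a b

lemma Sm.trace {M : E → Matrix ι ι ℂ} {x : E} (hM : Sm M x) :
    ContDiffAt ℝ 1 (fun y => (M y).trace) x := by
  simp only [Matrix.trace, Matrix.diag]
  exact ContDiffAt.sum fun i _ => hM i i

end smooth

section stein

variable {n : ℕ}

/-- the matrix of the Stein operator `X ↦ X - C X Cᴴ` -/
def stein (C : Matrix (Fin n) (Fin n) ℂ) : Matrix (Fin n × Fin n) (Fin n × Fin n) ℂ :=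
  Matrix.of fun p q => (if p = q then 1 else 0) - C p.1 q.1 * star (C p.2 q.2)

lemma stein_mulVec (C X : Matrix (Fin n) (Fin n) ℂ) (p : Fin n × Fin n) :
    (stein C *ᵥ fun q => X q.1 q.2) p = (X - C * X * Cᴴ) p.1 p.2 := by
  obtain ⟨i, j⟩ := p
  simp only [stein, Matrix.mulVec, dotProduct, Matrix.of_apply, sub_mul, Finset.sum_sub_distrib,
    ite_mul, one_mul, zero_mul, Finset.sum_ite_eq, Finset.mem_univ, if_true, Matrix.sub_apply]
  congr 1
  rw [Fintype.sum_prod_type, Matrix.mul_apply, Finset.sum_comm]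
  refine Finset.sum_congr rfl fun l _ => ?_
  rw [Matrix.mul_apply, Finset.sum_mul]
  refine Finset.sum_congr rfl fun k _ => ?_
  rw [Matrix.conjTranspose_apply]
  ring

/-- the solution of the Stein equation `X - C X Cᴴ = Y` -/
noncomputable def solve (C Y : Matrix (Fin n) (Fin n) ℂ) : Matrix (Fin n) (Fin n) ℂ :=
  Matrix.of fun i j => ((stein C)⁻¹ *ᵥ fun q => Y q.1 q.2) (i, j)

lemma solve_eq {C X Y : Matrix (Fin n) (Fin n) ℂ} (hC : (stein C).det ≠ 0)
    (h : X - C * X * Cᴴ = Y) : solve C Y = X := by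
  ext i j
  have h1 : (fun q : Fin n × Fin n => Y q.1 q.2) = stein C *ᵥ fun q => X q.1 q.2 := by
    funext p
    rw [stein_mulVec, h]
  simp only [solve, Matrix.of_apply]
  rw [h1, Matrix.mulVec_mulVec, Matrix.nonsing_inv_mul _ (Ne.isUnit hC), Matrix.one_mulVec]

lemma stein_det_ne {C : Matrix (Fin n) (Fin n) ℂ}
    (h : ∀ X : Matrix (Fin n) (Fin n) ℂ, X - C * X * Cᴴ = 0 → X = 0) : (stein C).det ≠ 0 := by
  intro hdet
  obtain ⟨v, hv, hv0⟩ := Matrix.exists_mulVec_eq_zero_iff.2 hdet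
  apply hv
  have := h (Matrix.of fun i j => v (i, j)) (by
    ext i j
    rw [← stein_mulVec C _ (i, j)]
    exact congrFun hv0 (i, j))
  funext p
  exact congrFun (congrFun this p.1) p.2

variable {E : Type*} [NormedAddCommGroup E] [NormedSpace ℝ E]

lemma Sm.stein {C : E → Matrix (Fin n) (Fin n) ℂ} {x : E} (h : Sm C x) :
    Sm (fun y => TTO.stein (C y)) x := by
  intro p q
  simp only [TTO.stein, Matrix.of_apply]
  exact contDiffAt_const.sub ((h _ _).mul (contDiffAt_star (h _ _)))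

lemma Sm.solve {C Y : E → Matrix (Fin n) (Fin n) ℂ} {x : E} (h : Sm C x) (hY : Sm Y x)
    (hx : (TTO.stein (C x)).det ≠ 0) : Sm (fun y => TTO.solve (C y) (Y y)) x := by
  intro i j
  simp only [TTO.solve, Matrix.of_apply, Matrix.mulVec, dotProduct]
  exact ContDiffAt.sum fun q _ => (h.stein.inv hx _ _).mul (hY _ _)

/-- companion type matrix with last column `c` -/
def cmp (c : Fin n → ℂ) : Matrix (Fin n) (Fin n) ℂ :=
  Matrix.of fun i j => (if (i : ℕ) = j + 1 then 1 else 0) + (if (j : ℕ) + 1 = n then c i else 0)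

/-- the rank one matrix `u e₀ᴴ` -/
def colZero (u : Fin n → ℂ) : Matrix (Fin n) (Fin n) ℂ :=
  Matrix.of fun i j => if (j : ℕ) = 0 then u i else 0

/-- the rank one matrix `e₀ e₀ᴴ` -/
def unitZero (n : ℕ) : Matrix (Fin n) (Fin n) ℂ :=
  Matrix.of fun i j => if (i : ℕ) = 0 ∧ (j : ℕ) = 0 then 1 else 0

/-- the parameters -/
abbrev Par (n : ℕ) := (Fin n → ℂ) × (Fin n → ℂ) × (Fin n → ℂ)

/-- the inverse Gram matrix -/
noncomputable def gram (x : Par n) : Matrix (Fin n) (Fin n) ℂ := solve (cmp x.1) (unitZero n)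

/-- the form of the operator -/
noncomputable def form (x : Par n) : Matrix (Fin n) (Fin n) ℂ :=
  solve (cmp x.1) (colZero x.2.1 + (colZero x.2.2)ᴴ)

/-- real part in the model -/
noncomputable def reP (x : Par n) : Matrix (Fin n) (Fin n) ℂ :=
  ((1 / 2 : ℂ) • (form x + (form x)ᴴ)) * (gram x)⁻¹

/-- imaginary part in the model -/
noncomputable def imP (x : Par n) : Matrix (Fin n) (Fin n) ℂ :=
  ((1 / (2 * Complex.I) : ℂ) • (form x - (form x)ᴴ)) * (gram x)⁻¹

/-- interpolation polynomial in a matrix -/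
noncomputable def proj (a : Matrix (Fin n) (Fin n) ℂ) (j : Fin n) (X : Matrix (Fin n) (Fin n) ℂ) :
    Matrix (Fin n) (Fin n) ℂ := ∑ i : Fin n, a i j • X ^ (i : ℕ)

/-- index set of the invariants -/
abbrev Idx (n : ℕ) := {p : Fin n × Fin n // p.1 ≤ p.2}

/-- the invariants -/
noncomputable def inv (a : Matrix (Fin n) (Fin n) ℂ) (x : Par n) : Idx n → ℝ := fun p =>
  (proj a p.1.1 (reP x) * imP x * proj a p.1.2 (reP x) * imP x).trace.re

/-- the set of regular parameters -/
def Reg (n : ℕ) : Set (Par n) := {x | (stein (cmp x.1)).det ≠ 0 ∧ (gram x).det ≠ 0}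

lemma sm_cmp (x : Par n) : Sm (fun y : Par n => cmp y.1) x := by
  intro i j
  simp only [cmp, Matrix.of_apply]
  apply contDiffAt_const.add
  split_ifs
  · have : ContDiff ℝ 1 fun y : Par n => y.1 i := by fun_prop
    exact this.contDiffAt
  · exact contDiffAt_const

lemma sm_colZero1 (x : Par n) : Sm (fun y : Par n => colZero y.2.1) x := by
  intro i j
  simp only [colZero, Matrix.of_apply]
  split_ifs
  · have : ContDiff ℝ 1 fun y : Par n => y.2.1 i := by fun_prop
    exact this.contDiffAt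
  · exact contDiffAt_const

lemma sm_colZero2 (x : Par n) : Sm (fun y : Par n => colZero y.2.2) x := by
  intro i j
  simp only [colZero, Matrix.of_apply]
  split_ifs
  · have : ContDiff ℝ 1 fun y : Par n => y.2.2 i := by fun_prop
    exact this.contDiffAt
  · exact contDiffAt_const

lemma sm_gram {x : Par n} (hx : x ∈ Reg n) : Sm (gram (n := n)) x :=
  (sm_cmp x).solve (Sm.const _ x) hx.1

lemma sm_form {x : Par n} (hx : x ∈ Reg n) : Sm (form (n := n)) x :=
  (sm_cmp x).solve ((sm_colZero1 x).add (sm_colZero2 x).conjTranspose) hx.1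

lemma sm_reP {x : Par n} (hx : x ∈ Reg n) : Sm (reP (n := n)) x :=
  (((sm_form hx).add (sm_form hx).conjTranspose).smul _).mul ((sm_gram hx).inv hx.2)

lemma sm_imP {x : Par n} (hx : x ∈ Reg n) : Sm (imP (n := n)) x :=
  (((sm_form hx).sub (sm_form hx).conjTranspose).smul _).mul ((sm_gram hx).inv hx.2)

lemma sm_inv (a : Matrix (Fin n) (Fin n) ℂ) {x : Par n} (hx : x ∈ Reg n) :
    ContDiffAt ℝ 1 (inv a) x := by
  rw [contDiffAt_pi]
  intro p
  have h1 : ∀ j, Sm (fun y : Par n => proj a j (reP y)) x := fun j =>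
    Sm.sum _ fun i _ => ((sm_reP hx).pow _).smul _
  have h2 := ((((h1 p.1.1).mul (sm_imP hx)).mul (h1 p.1.2)).mul (sm_imP hx)).trace
  exact Complex.reCLM.contDiff.contDiffAt.comp x h2

/-- the image of the regular parameters has dense complement -/
theorem dense_compl (a : Matrix (Fin 12) (Fin 12) ℂ) :
    Dense ((inv a) '' Reg 12)ᶜ := by
  apply dense_compl_of_dimH_lt_finrank
  have h1 : dimH (inv a '' Reg 12) ≤ dimH (Reg 12) := by
    apply dimH_image_le_of_locally_lipschitzOn
    intro x hx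
    obtain ⟨K, t, ht, hK⟩ := (sm_inv a hx).exists_lipschitzOnWith
    exact ⟨K, t, mem_nhdsWithin_of_mem_nhds ht, hK⟩
  have h2 : dimH (Reg 12) ≤ finrank ℝ (Par 12) := by
    rw [← Real.dimH_univ_eq_finrank]
    exact dimH_mono (Set.subset_univ _)
  have h3 : finrank ℝ (Par 12) = 72 := by
    simp [Par, Module.finrank_prod, Module.finrank_pi_fintype, Complex.finrank_real_complex]
  have h4 : finrank ℝ (Idx 12 → ℝ) = 78 := by
    rw [Module.finrank_fintype_fun_eq_card]
    rfl
  rw [h3] at h2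
  rw [h4]
  exact lt_of_le_of_lt (h1.trans h2) (by norm_num)

end stein

end Pool.Agent.W5h48.TTO
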