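import Pool.Agent.W5h48.TTO.A

set_option autoImplicit false

/-! The model of a matrix which satisfies the rank two criterion. -/

namespace Pool.Agent.W5h48.TTO

open Matrix Module Filter Topology
open scoped ComplexOrder

variable {n : ℕ}

section pow

attribute [local instance] Matrix.linftyOpNormedRing Matrix.linftyOpNormedAlgebra

lemma entry_le (A : Matrix (Fin n) (Fin n) ℂ) (i j : Fin n) : ‖A i j‖ ≤ ‖A‖ := by
  rw [Matrix.linfty_opNorm_def]
  have h1 : ‖A i j‖₊ ≤ ∑ j, ‖A i j‖₊ := Finset.single_le_sum (f := fun j => ‖A i j‖₊)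
    (fun _ _ => zero_le) (Finset.mem_univ j)
  have h2 : (∑ j, ‖A i j‖₊) ≤ Finset.univ.sup fun i => ∑ j, ‖A i j‖₊ :=
    Finset.le_sup (f := fun i => ∑ j, ‖A i j‖₊) (Finset.mem_univ i)
  exact_mod_cast h1.trans h2

lemma pow_entry_tendsto [NeZero n] {T : Matrix (Fin n) (Fin n) ℂ}
    (hT : ∀ μ : ℂ, ∀ x : Fin n → ℂ, x ≠ 0 → T *ᵥ x = μ • x → ‖μ‖ < 1) (i j : Fin n) :
    Tendsto (fun m : ℕ => (T ^ m) i j) atTop (𝓝 0) := by
  have hcomp : CompleteSpace (Matrix (Fin n) (Fin n) ℂ) := FiniteDimensional.complete ℂ _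
  have hs : spectralRadius ℂ T < (1 : NNReal) := by
    apply spectrum.spectralRadius_lt_of_forall_lt
    intro μ hμ
    rw [spectrum.mem_iff, Matrix.isUnit_iff_isUnit_det, isUnit_iff_ne_zero, not_not] at hμ
    obtain ⟨x, hx, hx0⟩ := Matrix.exists_mulVec_eq_zero_iff.2 hμ
    have := hT μ x hx (by
      rw [Matrix.sub_mulVec, Matrix.algebraMap_eq_diagonal] at hx0
      rw [sub_eq_zero] at hx0
      rw [← hx0]
      ext l
      rw [Matrix.mulVec_diagonal]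
      simp)
    exact_mod_cast this
  obtain ⟨r, hr1, hr2⟩ := ENNReal.lt_iff_exists_nnreal_btwn.1 hs
  have hg := spectrum.pow_nnnorm_pow_one_div_tendsto_nhds_spectralRadius T
  have hev : ∀ᶠ m : ℕ in atTop, ‖(T ^ m) i j‖ ≤ (r : ℝ) ^ m := by
    filter_upwards [hg.eventually_lt_const hr1, eventually_gt_atTop 0] with m hm hm0
    have h1 : ‖T ^ m‖₊ ^ (1 / (m : ℝ)) < r := by
      rw [← ENNReal.coe_rpow_of_nonneg _ (by positivity)] at hm
      exact ENNReal.coe_lt_coe.1 hm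
    have h2 : ‖T ^ m‖₊ ≤ r ^ m := by
      have hm' : (0 : ℝ) < m := by exact_mod_cast hm0
      have h3 := NNReal.rpow_le_rpow h1.le hm'.le
      rw [← NNReal.rpow_mul, one_div, inv_mul_cancel₀ hm'.ne', NNReal.rpow_one,
        NNReal.rpow_natCast] at h3
      exact h3
    refine (entry_le _ _ _).trans ?_
    exact_mod_cast h2
  have hr3 : (r : ℝ) < 1 := by exact_mod_cast hr2
  rw [tendsto_zero_iff_norm_tendsto_zero]
  exact squeeze_zero' (Eventually.of_forall fun _ => norm_nonneg _) hev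
    (tendsto_pow_atTop_nhds_zero_of_lt_one r.coe_nonneg hr3)

end pow

lemma pow_tendsto [NeZero n] {T : Matrix (Fin n) (Fin n) ℂ}
    (hT : ∀ μ : ℂ, ∀ x : Fin n → ℂ, x ≠ 0 → T *ᵥ x = μ • x → ‖μ‖ < 1) :
    Tendsto (fun m : ℕ => T ^ m) atTop (𝓝 0) := by
  refine tendsto_pi_nhds.2 fun i => ?_
  refine tendsto_pi_nhds.2 fun j => ?_
  exact pow_entry_tendsto hT i j

section model

variable [NeZero n] {T M : Matrix (Fin n) (Fin n) ℂ} {k u v : Fin n → ℂ}

/-- uniqueness for the Stein equation of `T` -/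
lemma stein_inj (hT : ∀ μ : ℂ, ∀ x : Fin n → ℂ, x ≠ 0 → T *ᵥ x = μ • x → ‖μ‖ < 1)
    {Y : Matrix (Fin n) (Fin n) ℂ} (hY : T * Y * Tᴴ = Y) : Y = 0 := by
  have h1 : ∀ m : ℕ, T ^ m * Y * (T ^ m)ᴴ = Y := by
    intro m
    induction m with
    | zero => simp
    | succ m ih =>
      calc T ^ (m + 1) * Y * (T ^ (m + 1))ᴴ = T ^ m * (T * Y * Tᴴ) * (T ^ m)ᴴ := by
            rw [pow_succ, Matrix.conjTranspose_mul]
            simp only [Matrix.mul_assoc]
        _ = Y := by rw [hY, ih]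
  have h2 := pow_tendsto hT
  have h3 : Tendsto (fun m : ℕ => T ^ m * Y * (T ^ m)ᴴ) atTop (𝓝 (0 * Y * 0ᴴ)) := by
    have hc : Continuous fun A : Matrix (Fin n) (Fin n) ℂ => A * Y * Aᴴ := by fun_prop
    exact (hc.tendsto 0).comp h2
  simp only [h1, zero_mul] at h3
  exact tendsto_nhds_unique tendsto_const_nhds h3

lemma ctrl (hk : 1 - T * Tᴴ = Matrix.vecMulVec k (star k))
    (hT : ∀ μ : ℂ, ∀ x : Fin n → ℂ, x ≠ 0 → T *ᵥ x = μ • x → ‖μ‖ < 1) {z : Fin n → ℂ}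
    (hz : ∀ m : ℕ, star z ⬝ᵥ (T ^ m *ᵥ k) = 0) : z = 0 := by
  have hTT : T * Tᴴ = 1 - Matrix.vecMulVec k (star k) := by rw [← hk]; abel
  have h1 : ∀ m : ℕ, star z ⬝ᵥ ((T ^ m * (T ^ m)ᴴ) *ᵥ z) = star z ⬝ᵥ z := by
    intro m
    induction m with
    | zero => simp
    | succ m ih =>
      have e1 : T ^ (m + 1) * (T ^ (m + 1))ᴴ
          = T ^ m * (T ^ m)ᴴ - T ^ m * Matrix.vecMulVec k (star k) * (T ^ m)ᴴ := by
        calc T ^ (m + 1) * (T ^ (m + 1))ᴴ = T ^ m * (T * Tᴴ) * (T ^ m)ᴴ := by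
              rw [pow_succ, Matrix.conjTranspose_mul]
              simp only [Matrix.mul_assoc]
          _ = _ := by rw [hTT, Matrix.mul_sub, Matrix.sub_mul, Matrix.mul_one]
      rw [e1, Matrix.sub_mulVec, dotProduct_sub, ih]
      have e2 : star z ⬝ᵥ ((T ^ m * Matrix.vecMulVec k (star k) * (T ^ m)ᴴ) *ᵥ z) = 0 := by
        rw [Matrix.mul_vecMulVec, ← Matrix.mulVec_mulVec, Matrix.vecMulVec_mulVec]
        rw [show MulOpposite.op (star k ⬝ᵥ ((T ^ m)ᴴ *ᵥ z)) • (T ^ m *ᵥ k)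
          = (star k ⬝ᵥ ((T ^ m)ᴴ *ᵥ z)) • (T ^ m *ᵥ k) from by ext; simp [mul_comm]]
        rw [dotProduct_smul, hz m, smul_zero]
      rw [e2, sub_zero]
  have h3 : Tendsto (fun m : ℕ => star z ⬝ᵥ ((T ^ m * (T ^ m)ᴴ) *ᵥ z)) atTop
      (𝓝 (star z ⬝ᵥ (((0 : Matrix (Fin n) (Fin n) ℂ) * 0ᴴ) *ᵥ z))) := by
    have hc : Continuous fun A : Matrix (Fin n) (Fin n) ℂ => star z ⬝ᵥ ((A * Aᴴ) *ᵥ z) := by
      fun_prop
    exact (hc.tendsto 0).comp (pow_tendsto hT)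
  simp only [h1, zero_mul, Matrix.zero_mulVec, dotProduct_zero] at h3
  have h4 : star z ⬝ᵥ z = 0 := tendsto_nhds_unique tendsto_const_nhds h3
  exact dotProduct_star_self_eq_zero.1 h4

/-- the controllability matrix -/
def ctr (T : Matrix (Fin n) (Fin n) ℂ) (k : Fin n → ℂ) : Matrix (Fin n) (Fin n) ℂ :=
  Matrix.of fun i j => (T ^ (j : ℕ) *ᵥ k) i

lemma ctr_det (hk : 1 - T * Tᴴ = Matrix.vecMulVec k (star k))
    (hT : ∀ μ : ℂ, ∀ x : Fin n → ℂ, x ≠ 0 → T *ᵥ x = μ • x → ‖μ‖ < 1) :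
    (ctr T k).det ≠ 0 := by
  intro hdet
  obtain ⟨y, hy, hy0⟩ := Matrix.exists_vecMul_eq_zero_iff.2 hdet
  have h1 : ∀ j : ℕ, j < n → y ⬝ᵥ (T ^ j *ᵥ k) = 0 := by
    intro j hj
    exact congrFun hy0 ⟨j, hj⟩
  have h2 : ∀ j : ℕ, y ⬝ᵥ (T ^ j *ᵥ k) = 0 := by
    intro j
    rw [Matrix.pow_eq_aeval_mod_charpoly T j]
    have hdeg : (Polynomial.X ^ j %ₘ T.charpoly).natDegree < n := by
      have := Polynomial.natDegree_modByMonic_lt (Polynomial.X ^ j) T.charpoly_monic (by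
        intro h
        have := T.charpoly_natDegree_eq_dim
        rw [h] at this
        simp at this
        exact NeZero.ne n this.symm)
      rw [T.charpoly_natDegree_eq_dim, Fintype.card_fin] at this
      exact this
    rw [Polynomial.aeval_eq_sum_range' hdeg, Matrix.sum_mulVec, dotProduct_sum]
    apply Finset.sum_eq_zero
    intro i hi
    rw [Matrix.smul_mulVec, dotProduct_smul, h1 i (Finset.mem_range.1 hi), smul_zero]
  apply hy
  have := ctrl hk hT (z := star y) (by simpa using h2)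
  simpa using this

omit [NeZero n] in
lemma ctr_mul (hK : (ctr T k).det ≠ 0) :
    T * ctr T k = ctr T k * cmp ((ctr T k)⁻¹ *ᵥ (T ^ n *ᵥ k)) := by
  ext i j
  have hL : (T * ctr T k) i j = (T ^ ((j : ℕ) + 1) *ᵥ k) i := by
    rw [pow_succ', ← Matrix.mulVec_mulVec]
    rfl
  rw [hL, Matrix.mul_apply]
  simp only [cmp, Matrix.of_apply, mul_add, Finset.sum_add_distrib]
  rcases Nat.lt_or_ge ((j : ℕ) + 1) n with h | h
  · have hne : ¬ ((j : ℕ) + 1 = n) := by omega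
    simp only [if_neg hne, mul_zero, Finset.sum_const_zero, add_zero]
    rw [Finset.sum_eq_single (⟨(j : ℕ) + 1, h⟩ : Fin n)]
    · simp [ctr]
    · intro b _ hb
      rw [if_neg, mul_zero]
      intro hb2
      exact hb (Fin.ext hb2)
    · intro h'; exact absurd (Finset.mem_univ _) h'
  · have he : (j : ℕ) + 1 = n := by have := j.2; omega
    have hz : ∀ b : Fin n, ¬ ((b : ℕ) = (j : ℕ) + 1) := fun b hb => by have := b.2; omega
    simp only [if_pos he, if_neg (hz _), mul_zero, Finset.sum_const_zero, zero_add]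
    have : (ctr T k *ᵥ ((ctr T k)⁻¹ *ᵥ (T ^ n *ᵥ k))) i = (T ^ n *ᵥ k) i := by
      rw [Matrix.mulVec_mulVec, Matrix.mul_nonsing_inv _ (Ne.isUnit hK), Matrix.one_mulVec]
    rw [he, ← this]
    rfl

lemma ctr_inv_k (hK : (ctr T k).det ≠ 0) :
    (ctr T k)⁻¹ *ᵥ k = fun i : Fin n => if (i : ℕ) = 0 then (1 : ℂ) else 0 := by
  have h0 : k = ctr T k *ᵥ (fun i : Fin n => if (i : ℕ) = 0 then (1 : ℂ) else 0) := by
    ext i
    rw [Matrix.mulVec, dotProduct, Finset.sum_eq_single (0 : Fin n)]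
    · simp [ctr]
    · intro b _ hb
      rw [if_neg, mul_zero]
      intro hb2
      exact hb (Fin.ext (by simpa using hb2))
    · intro h'; exact absurd (Finset.mem_univ _) h'
  calc (ctr T k)⁻¹ *ᵥ k
      = (ctr T k)⁻¹ *ᵥ (ctr T k *ᵥ (fun i : Fin n => if (i : ℕ) = 0 then (1 : ℂ) else 0)) := by
        rw [← h0]
    _ = _ := by
        rw [Matrix.mulVec_mulVec, Matrix.nonsing_inv_mul _ (Ne.isUnit hK), Matrix.one_mulVec]

omit [NeZero n] in
lemma conj_vecMulVec (P : Matrix (Fin n) (Fin n) ℂ) (a b : Fin n → ℂ) :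
    P * Matrix.vecMulVec a (star b) * Pᴴ = Matrix.vecMulVec (P *ᵥ a) (star (P *ᵥ b)) := by
  rw [Matrix.mul_vecMulVec, Matrix.vecMulVec_mul, Matrix.star_mulVec]

end model

end Pool.Agent.W5h48.TTO
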