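import Pool.Agent.W5h48.TTO.B

set_option autoImplicit false

/-! The parametrisation of the matrices which satisfy the rank two criterion, and the invariants. -/

namespace Pool.Agent.W5h48.TTO

open Matrix Module Filter Topology

variable {n : ℕ}

section model

variable [NeZero n] {T M : Matrix (Fin n) (Fin n) ℂ} {k u v : Fin n → ℂ}

theorem model (hk : 1 - T * Tᴴ = Matrix.vecMulVec k (star k))
    (hT : ∀ μ : ℂ, ∀ x : Fin n → ℂ, x ≠ 0 → T *ᵥ x = μ • x → ‖μ‖ < 1)
    (hM : M - T * M * Tᴴ = Matrix.vecMulVec u (star k) + Matrix.vecMulVec k (star v)) :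
    ∃ x ∈ Reg n, ∃ K : Matrix (Fin n) (Fin n) ℂ, K.det ≠ 0 ∧
      reP x = K⁻¹ * ((1 / 2 : ℂ) • (M + Mᴴ)) * K ∧
      imP x = K⁻¹ * ((1 / (2 * Complex.I) : ℂ) • (M - Mᴴ)) * K := by
  have hK := ctr_det hk hT
  set K := ctr T k with hKdef
  set Ki := K⁻¹ with hKi
  set c := Ki *ᵥ (T ^ n *ᵥ k) with hc
  have hKu : IsUnit K.det := Ne.isUnit hK
  have hKK : K * Ki = 1 := Matrix.mul_nonsing_inv _ hKu
  have hKK' : Ki * K = 1 := Matrix.nonsing_inv_mul _ hKu
  have hTK : T * K = K * cmp c := ctr_mul hK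
  have hCK : cmp c * Ki = Ki * T := by
    calc cmp c * Ki = Ki * (K * cmp c) * Ki := by rw [← Matrix.mul_assoc, hKK', Matrix.one_mul]
      _ = Ki * T * (K * Ki) := by rw [← hTK]; simp only [Matrix.mul_assoc]
      _ = Ki * T := by rw [hKK, Matrix.mul_one]
  have hCK' : Kiᴴ * (cmp c)ᴴ = Tᴴ * Kiᴴ := by
    rw [← Matrix.conjTranspose_mul, hCK, Matrix.conjTranspose_mul]
  have hKKH : Kiᴴ * Kᴴ = 1 := by
    rw [← Matrix.conjTranspose_mul, hKK, Matrix.conjTranspose_one]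
  have hKKH' : Kᴴ * Kiᴴ = 1 := by
    rw [← Matrix.conjTranspose_mul, hKK', Matrix.conjTranspose_one]
  have hst : (stein (cmp c)).det ≠ 0 := by
    apply stein_det_ne
    intro X hX
    have hX' : cmp c * X * (cmp c)ᴴ = X := (sub_eq_zero.1 hX).symm
    have hY : T * (K * X * Kᴴ) * Tᴴ = K * X * Kᴴ := by
      calc T * (K * X * Kᴴ) * Tᴴ = (T * K) * X * (T * K)ᴴ := by
            rw [Matrix.conjTranspose_mul]; simp only [Matrix.mul_assoc]
        _ = K * (cmp c * X * (cmp c)ᴴ) * Kᴴ := by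
            rw [hTK, Matrix.conjTranspose_mul]; simp only [Matrix.mul_assoc]
        _ = K * X * Kᴴ := by rw [hX']
    have h0 := stein_inj hT hY
    calc X = (Ki * K) * X * (Kᴴ * Kiᴴ) := by rw [hKK', hKKH', Matrix.one_mul, Matrix.mul_one]
      _ = Ki * (K * X * Kᴴ) * Kiᴴ := by simp only [Matrix.mul_assoc]
      _ = 0 := by rw [h0]; simp
  have hconj : ∀ A : Matrix (Fin n) (Fin n) ℂ,
      Ki * A * Kiᴴ - cmp c * (Ki * A * Kiᴴ) * (cmp c)ᴴ = Ki * (A - T * A * Tᴴ) * Kiᴴ := by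
    intro A
    calc Ki * A * Kiᴴ - cmp c * (Ki * A * Kiᴴ) * (cmp c)ᴴ
        = Ki * A * Kiᴴ - (cmp c * Ki) * A * (Kiᴴ * (cmp c)ᴴ) := by simp only [Matrix.mul_assoc]
      _ = Ki * A * Kiᴴ - Ki * (T * A * Tᴴ) * Kiᴴ := by
          rw [hCK, hCK']; simp only [Matrix.mul_assoc]
      _ = _ := by rw [Matrix.mul_sub, Matrix.sub_mul]
  have he0 := ctr_inv_k hK
  set e0 : Fin n → ℂ := fun i : Fin n => if (i : ℕ) = 0 then (1 : ℂ) else 0 with he0def
  have hcol : ∀ w : Fin n → ℂ, Matrix.vecMulVec w (star e0) = colZero w := by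
    intro w
    ext i j
    simp only [Matrix.vecMulVec_apply, colZero, Matrix.of_apply, he0def, Pi.star_apply]
    split_ifs <;> simp
  have hunit : Matrix.vecMulVec e0 (star e0) = unitZero n := by
    ext i j
    simp only [Matrix.vecMulVec_apply, unitZero, Matrix.of_apply, he0def, Pi.star_apply]
    by_cases h1 : (i : ℕ) = 0 <;> by_cases h2 : (j : ℕ) = 0 <;> simp [h1, h2]
  have hcolH : ∀ w : Fin n → ℂ, Matrix.vecMulVec e0 (star w) = (colZero w)ᴴ := by
    intro w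
    rw [← hcol, Matrix.conjTranspose_vecMulVec, star_star]
  let x : Par n := (c, Ki *ᵥ u, Ki *ᵥ v)
  have hgram : gram x = Ki * Kiᴴ := by
    apply solve_eq hst
    have := hconj 1
    rw [Matrix.mul_one, Matrix.mul_one, hk, conj_vecMulVec, he0, hunit] at this
    exact this
  have hform : form x = Ki * M * Kiᴴ := by
    apply solve_eq hst
    rw [hconj M, hM, Matrix.mul_add, Matrix.add_mul, conj_vecMulVec, conj_vecMulVec, he0, hcol,
      hcolH]
  have hgi : (gram x)⁻¹ = Kᴴ * K := by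
    rw [hgram]
    apply Matrix.inv_eq_right_inv
    calc Ki * Kiᴴ * (Kᴴ * K) = Ki * (Kiᴴ * Kᴴ) * K := by simp only [Matrix.mul_assoc]
      _ = 1 := by rw [hKKH, Matrix.mul_one, hKK']
  have hgd : (gram x).det ≠ 0 := by
    rw [hgram]
    intro h0
    have := congrArg Matrix.det (show Ki * Kiᴴ * (Kᴴ * K) = 1 by
      calc Ki * Kiᴴ * (Kᴴ * K) = Ki * (Kiᴴ * Kᴴ) * K := by simp only [Matrix.mul_assoc]
        _ = 1 := by rw [hKKH, Matrix.mul_one, hKK'])
    rw [Matrix.det_mul, h0, zero_mul, Matrix.det_one] at this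
    exact zero_ne_one this
  refine ⟨x, ⟨hst, hgd⟩, K, hK, ?_, ?_⟩
  · unfold reP
    rw [hgi, hform]
    have e1 : (Ki * M * Kiᴴ)ᴴ = Ki * Mᴴ * Kiᴴ := by
      simp only [Matrix.conjTranspose_mul, Matrix.conjTranspose_conjTranspose, Matrix.mul_assoc]
    rw [e1, ← Matrix.add_mul, ← Matrix.mul_add]
    simp only [Matrix.smul_mul, Matrix.mul_smul]
    congr 1
    calc Ki * (M + Mᴴ) * Kiᴴ * (Kᴴ * K) = Ki * (M + Mᴴ) * (Kiᴴ * Kᴴ) * K := by
          simp only [Matrix.mul_assoc]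
      _ = _ := by rw [hKKH, Matrix.mul_one]
  · unfold imP
    rw [hgi, hform]
    have e1 : (Ki * M * Kiᴴ)ᴴ = Ki * Mᴴ * Kiᴴ := by
      simp only [Matrix.conjTranspose_mul, Matrix.conjTranspose_conjTranspose, Matrix.mul_assoc]
    rw [e1, ← Matrix.sub_mul, ← Matrix.mul_sub]
    simp only [Matrix.smul_mul, Matrix.mul_smul]
    congr 1
    calc Ki * (M - Mᴴ) * Kiᴴ * (Kᴴ * K) = Ki * (M - Mᴴ) * (Kiᴴ * Kᴴ) * K := by
          simp only [Matrix.mul_assoc]
      _ = _ := by rw [hKKH, Matrix.mul_one]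

end model

section invariants

lemma conj_pow {K D : Matrix (Fin n) (Fin n) ℂ} (hK : K.det ≠ 0) (i : ℕ) :
    (K⁻¹ * D * K) ^ i = K⁻¹ * D ^ i * K := by
  have h1 : K * K⁻¹ = 1 := Matrix.mul_nonsing_inv _ (Ne.isUnit hK)
  have h2 : K⁻¹ * K = 1 := Matrix.nonsing_inv_mul _ (Ne.isUnit hK)
  induction i with
  | zero => simp [h2]
  | succ i ih =>
    calc (K⁻¹ * D * K) ^ (i + 1) = K⁻¹ * D ^ i * (K * K⁻¹) * D * K := by
          rw [pow_succ, ih]; simp only [Matrix.mul_assoc]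
      _ = K⁻¹ * D ^ (i + 1) * K := by
          rw [h1, Matrix.mul_one, pow_succ]; simp only [Matrix.mul_assoc]

lemma conj_proj {K D : Matrix (Fin n) (Fin n) ℂ} (hK : K.det ≠ 0)
    (a : Matrix (Fin n) (Fin n) ℂ) (j : Fin n) :
    proj a j (K⁻¹ * D * K) = K⁻¹ * proj a j D * K := by
  unfold proj
  rw [Matrix.mul_sum, Matrix.sum_mul]
  refine Finset.sum_congr rfl fun i _ => ?_
  rw [conj_pow hK, Matrix.mul_smul, Matrix.smul_mul]

lemma proj_diagonal {d : Fin n → ℂ} (hd : Function.Injective d) (j : Fin n) :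
    proj (Matrix.vandermonde d)⁻¹ j (Matrix.diagonal d) = Matrix.diagonal (Pi.single j 1) := by
  have hV : Matrix.vandermonde d * (Matrix.vandermonde d)⁻¹ = 1 :=
    Matrix.mul_nonsing_inv _ (Ne.isUnit (Matrix.det_vandermonde_ne_zero_iff.2 hd))
  unfold proj
  ext l m
  rw [Matrix.sum_apply]
  by_cases h : l = m
  · subst h
    have := congrFun (congrFun hV l) j
    rw [Matrix.mul_apply] at this
    rw [Matrix.diagonal_apply_eq]
    simp only [Matrix.diagonal_pow, Matrix.smul_apply, Matrix.diagonal_apply_eq, smul_eq_mul,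
      Pi.pow_apply]
    simp only [Matrix.vandermonde_apply] at this
    rw [show (Pi.single j 1 : Fin n → ℂ) l = (1 : Matrix (Fin n) (Fin n) ℂ) l j by
      rw [Matrix.one_apply, Pi.single_apply], ← this]
    exact Finset.sum_congr rfl fun i _ => mul_comm _ _
  · rw [Matrix.diagonal_apply_ne _ h]
    apply Finset.sum_eq_zero
    intro i _
    rw [Matrix.diagonal_pow, Matrix.smul_apply, Matrix.diagonal_apply_ne _ h, smul_zero]

lemma trace_single (B : Matrix (Fin n) (Fin n) ℂ) (j l : Fin n) :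
    (Matrix.diagonal (Pi.single j 1) * B * Matrix.diagonal (Pi.single l 1) * B).trace
      = B j l * B l j := by
  have h : ∀ i : Fin n,
      (Matrix.diagonal (Pi.single j 1) * B * Matrix.diagonal (Pi.single l 1) * B :
        Matrix (Fin n) (Fin n) ℂ) i i = ∑ m, (Pi.single j (1 : ℂ) : Fin n → ℂ) i * B i m * (Pi.single l (1 : ℂ) : Fin n → ℂ) m
          * B m i := by
    intro i
    rw [Matrix.mul_apply]
    refine Finset.sum_congr rfl fun m _ => ?_
    rw [Matrix.mul_diagonal, Matrix.diagonal_mul]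
  simp only [Matrix.trace, Matrix.diag]
  rw [Finset.sum_congr rfl fun i _ => h i, Finset.sum_eq_single j, Finset.sum_eq_single l]
  · simp
  · intro m _ hm
    rw [Pi.single_apply l, if_neg hm, mul_zero, zero_mul]
  · intro h; exact absurd (Finset.mem_univ _) h
  · intro m _ hm
    apply Finset.sum_eq_zero
    intro p _
    rw [Pi.single_apply j, if_neg hm, zero_mul, zero_mul, zero_mul]
  · intro h; exact absurd (Finset.mem_univ _) h

/-- the invariants of a matrix with diagonal real part -/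
lemma inv_eq {x : Par n} {K B : Matrix (Fin n) (Fin n) ℂ} {d : Fin n → ℂ} (hK : K.det ≠ 0)
    (hd : Function.Injective d) (h1 : reP x = K⁻¹ * Matrix.diagonal d * K)
    (h2 : imP x = K⁻¹ * B * K) (p : Idx n) :
    inv (Matrix.vandermonde d)⁻¹ x p = (B p.1.1 p.1.2 * B p.1.2 p.1.1).re := by
  have hKK : K * K⁻¹ = 1 := Matrix.mul_nonsing_inv _ (Ne.isUnit hK)
  unfold inv
  rw [h1, h2, conj_proj hK, conj_proj hK, proj_diagonal hd, proj_diagonal hd]
  congr 1
  set P := Matrix.diagonal (Pi.single p.1.1 1 : Fin n → ℂ)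
  set Q := Matrix.diagonal (Pi.single p.1.2 1 : Fin n → ℂ)
  have e1 : K⁻¹ * P * K * (K⁻¹ * B * K) * (K⁻¹ * Q * K) * (K⁻¹ * B * K)
      = K⁻¹ * ((P * B * Q * B) * K) := by
    calc K⁻¹ * P * K * (K⁻¹ * B * K) * (K⁻¹ * Q * K) * (K⁻¹ * B * K)
        = K⁻¹ * P * (K * K⁻¹) * B * (K * K⁻¹) * Q * (K * K⁻¹) * B * K := by
          simp only [Matrix.mul_assoc]
      _ = _ := by rw [hKK]; simp only [Matrix.mul_one, Matrix.mul_assoc]
  rw [e1, Matrix.trace_mul_comm, Matrix.mul_assoc, hKK, Matrix.mul_one]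
  exact trace_single B _ _

end invariants

end Pool.Agent.W5h48.TTO
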